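import Pool.Agent.Y453.HB.Tri

set_option autoImplicit false

open Set Filter Topology Function

namespace Pool.Agent.Y453.HB

variable {n : ℕ}

theorem fix_zpow {u : E n ≃ₜ E n} {x : E n} (h : u x = x) (m : ℤ) :
    (u ^ m : E n ≃ₜ E n) x = x := by
  have hp : ∀ k : ℕ, (u ^ k : E n ≃ₜ E n) x = x := by
    intro k
    induction k with
    | zero => rw [pow_zero]; rfl
    | succ k ih => rw [pow_succ, mul_apply, h, ih]
  rcases m with k | k
  · rw [Int.ofNat_eq_natCast, zpow_natCast]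
    exact hp k
  · rw [zpow_negSucc]
    have h1 := inv_apply_self (u ^ (k + 1)) x
    rwa [hp (k + 1)] at h1

theorem ham_zpow (hM : S_MUL) (hI : S_INV) {u : E n ≃ₜ E n} (hu : IsHam u) (m : ℤ) :
    IsHam (u ^ m) := by
  have hp : ∀ k : ℕ, IsHam (u ^ k) := by
    intro k
    induction k with
    | zero => rw [pow_zero]; exact (hI n).1
    | succ k ih => rw [pow_succ]; exact hM n _ _ ih hu
  rcases m with k | k
  · rw [Int.ofNat_eq_natCast, zpow_natCast]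
    exact hp k
  · rw [zpow_negSucc]; exact (hI n).2 _ (hp _)

theorem dil_pow (s : ℝ) (hs : 0 < s) (k : ℕ) :
    (dil s hs : E n ≃ₜ E n) ^ k = dil (s ^ k) (pow_pos hs k) := by
  induction k with
  | zero =>
    refine Homeomorph.ext fun x => ?_
    rw [pow_zero, dil_apply, pow_zero, one_smul]
    rfl
  | succ k ih =>
    refine Homeomorph.ext fun x => ?_
    rw [pow_succ, mul_apply, ih, dil_apply, dil_apply, dil_apply, smul_smul, pow_succ]

theorem cp_eq (s : ℝ) (hs : 0 < s) (g : E n ≃ₜ E n) (k : ℕ) :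
    cp s hs g k = dil (s ^ k) (pow_pos hs k) * g * (dil (s ^ k) (pow_pos hs k))⁻¹ := by
  unfold cp
  rw [dil_pow]

theorem cp_ham (hD : S_DIL) {s : ℝ} (hs : 0 < s) (hs1 : s ≤ 1) {u : E n ≃ₜ E n} (hu : IsHam u)
    (k : ℕ) : IsHam (cp s hs u k) := by
  rw [cp_eq]
  exact hD n _ _ (pow_le_one₀ hs.le hs1) u hu

theorem F_ham (hM : S_MUL) (hI : S_INV) (hD : S_DIL) {s : ℝ} (hs : 0 < s) (hs1 : s ≤ 1)
    {u : E n ≃ₜ E n} (hu : IsHam u) (b : ℕ → ℤ) (m : ℕ) : IsHam (F s hs u b m) := by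
  induction m with
  | zero => exact (hI n).1
  | succ m ih => exact hM n _ _ ih (ham_zpow hM hI (cp_ham hD hs hs1 hu m) (b m))

theorem cp_uconv (hU : S_UC) {s : ℝ} (hs : 0 < s) {u : ℕ → (E n ≃ₜ E n)} {g : E n ≃ₜ E n}
    (h : UConv u g) (j : ℕ) : UConv (fun k => cp s hs (u k) j) (cp s hs g j) := by
  simp only [cp_eq]
  have h1 := (hU n).2.2.2.1 (s ^ j) (pow_pos hs j)
  exact (hU n).1 _ _ _ _ ((hU n).1 _ _ _ _ h1 h) ((hU n).2.1 _ _ h1)

theorem F_uconv (hU : S_UC) {s : ℝ} (hs : 0 < s) {u : ℕ → (E n ≃ₜ E n)} {g : E n ≃ₜ E n}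
    (h : UConv u g) (b : ℕ → ℤ) (m : ℕ) : UConv (fun k => F s hs (u k) b m) (F s hs g b m) := by
  induction m with
  | zero =>
    have h1 := (hU n).2.2.1 _ _ h 0
    simp only [zpow_zero] at h1
    exact h1
  | succ m ih => exact (hU n).1 _ _ _ _ ih ((hU n).2.2.1 _ _ (cp_uconv hU hs h m) (b m))

theorem cp_id {s : ℝ} (hs : 0 < s) (hs1 : s < 1) {ρ : ℝ} {u : E n ≃ₜ E n}
    (h : ∀ x, ¬ ((s * ρ) ^ 2 < Q x ∧ Q x ≤ ρ ^ 2) → u x = x) (j : ℕ) (x : E n)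
    (hx : ρ ^ 2 < Q x) : cp s hs u j x = x := by
  have hp : 0 < s ^ j := pow_pos hs j
  rw [cp_eq, mul_apply, mul_apply, dil_inv_apply, dil_apply, h, smul_smul,
    mul_inv_cancel₀ hp.ne', one_smul]
  intro hc
  have h1 := hc.2
  rw [Q_smul] at h1
  have h2 : (1 : ℝ) ≤ ((s ^ j)⁻¹) ^ 2 := by
    have : (1 : ℝ) ≤ (s ^ j)⁻¹ := (one_le_inv₀ hp).2 (pow_le_one₀ hs.le hs1.le)
    nlinarith
  have h3 : Q x ≤ ((s ^ j)⁻¹) ^ 2 * Q x := by
    have := Q_nonneg x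
    nlinarith
  linarith

theorem F_id {s : ℝ} (hs : 0 < s) (hs1 : s < 1) {ρ : ℝ} {u : E n ≃ₜ E n}
    (h : ∀ x, ¬ ((s * ρ) ^ 2 < Q x ∧ Q x ≤ ρ ^ 2) → u x = x) (b : ℕ → ℤ) (m : ℕ) (x : E n)
    (hx : ρ ^ 2 < Q x) : F s hs u b m x = x := by
  induction m with
  | zero => rfl
  | succ m ih =>
    change (F s hs u b m * cp s hs u m ^ b m) x = x
    rw [mul_apply, fix_zpow (cp_id hs hs1 h m x hx), ih]

/-- infinite products of copies are Hamiltonian homeomorphisms -/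
theorem mem_hamBar (hM : S_MUL) (hI : S_INV) (hD : S_DIL) (hU : S_UC) {s : ℝ} (hs : 0 < s)
    (hs1 : s < 1) {ρ : ℝ} (hρ : 0 < ρ) (hρ1 : ρ < 1) {g : E n ≃ₜ E n} {v : ℕ → (E n ≃ₜ E n)}
    (hv : UConv v g) (hham : ∀ k, IsHam (v k))
    (hsupp : ∀ k x, ¬ ((s * ρ) ^ 2 < Q x ∧ Q x ≤ ρ ^ 2) → v k x = x) (T : E n ≃ₜ E n)
    (hT1 : ∀ x, ρ ^ 2 < Q x → T x = x) (b : ℕ → ℤ)
    (hT2 : ∀ (m : ℕ) (x : E n), dist (T x) (F s hs g b m x) ≤ 2 * (s ^ m * ρ)) :
    T ∈ hamBar n := by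
  have hJ : ∀ m : ℕ, ∃ k : ℕ, ∀ x, dist (F s hs g b m x) (F s hs (v k) b m x) <
      1 / ((m : ℝ) + 1) := by
    intro m
    have h1 := Metric.tendstoUniformly_iff.1 (F_uconv hU hs hv b m).1 (1 / ((m : ℝ) + 1))
      (by positivity)
    exact h1.exists
  choose J hJ using hJ
  refine ⟨{x | Q x ≤ ρ ^ 2}, Q_compact _, fun x hx => ?_, fun x hx => hT1 x (not_le.1 hx),
    fun m => F s hs (v (J m)) b m, fun m x hx => F_id hs hs1 (hsupp (J m)) b m x (not_le.1 hx),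
    fun m => F_ham hM hI hD hs hs1.le (hham (J m)) b m, ?_⟩
  · have : Q x ≤ ρ ^ 2 := hx
    change Q x < 1
    nlinarith
  · rw [Metric.tendstoUniformly_iff]
    intro ε hε
    have h1 : Tendsto (fun m : ℕ => 2 * (s ^ m * ρ) + 1 / ((m : ℝ) + 1)) atTop (𝓝 0) := by
      have h2 := tendsto_pow_atTop_nhds_zero_of_lt_one hs.le hs1
      have h3 := ((h2.mul_const ρ).const_mul 2).add
        (tendsto_one_div_add_atTop_nhds_zero_nat (𝕜 := ℝ))
      simpa using h3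
    filter_upwards [h1.eventually (gt_mem_nhds hε)] with m hm x
    calc dist (T x) (F s hs (v (J m)) b m x)
        ≤ dist (T x) (F s hs g b m x) + dist (F s hs g b m x) (F s hs (v (J m)) b m x) :=
          dist_triangle _ _ _
      _ < 2 * (s ^ m * ρ) + 1 / ((m : ℝ) + 1) := add_lt_add_of_le_of_lt (hT2 m x) (hJ m x)
      _ < ε := hm

/-- Hamiltonian diffeomorphisms have compact support in the ball -/
theorem ham_support {u : E n ≃ₜ E n} (hu : IsHam u) :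
    ∃ K : Set (E n), IsCompact K ∧ K ⊆ {p : E n | Q p < 1} ∧ ∀ x, x ∉ K → u x = x := by
  obtain ⟨H, -, ⟨K, hK, hK1, hH⟩, ψ, h0, hψ, h1⟩ := hu
  refine ⟨K, hK, hK1, fun x hx => ?_⟩
  rw [h1]
  have hXH : ∀ t y, y ∉ K → XH (H t) y = 0 := by
    intro t y hy
    have h2 : H t =ᶠ[𝓝 y] fun _ => (0 : ℝ) := by
      filter_upwards [hK.isClosed.isOpen_compl.mem_nhds hy] with z hz using hH t z hz
    have h3 : fderiv ℝ (H t) y = 0 := by
      rw [h2.fderiv_eq]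
      simp
    unfold XH
    rw [h3]
    ext <;> simp
  have hcont : Continuous fun t => ψ t x :=
    continuous_iff_continuousAt.2 fun t => (hψ t x).continuousAt
  have hclosed : IsClosed {t : ℝ | ψ t x = x} := isClosed_eq hcont continuous_const
  have hopen : IsOpen {t : ℝ | ψ t x = x} := by
    rw [Metric.isOpen_iff]
    intro t ht
    have ht' : ψ t x = x := ht
    have h2 : ∀ᶠ s in 𝓝 t, ψ s x ∉ K := by
      have h3 : Kᶜ ∈ 𝓝 (ψ t x) := by
        rw [ht']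
        exact hK.isClosed.isOpen_compl.mem_nhds hx
      exact hcont.continuousAt.eventually_mem h3
    obtain ⟨ε, hε, h3⟩ := Metric.eventually_nhds_iff.1 h2
    refine ⟨ε, hε, fun s hs => ?_⟩
    have hconv : Convex ℝ (Metric.ball t ε) := convex_ball t ε
    have h4 : ∀ y ∈ Metric.ball t ε, HasDerivWithinAt (fun s => ψ s x) 0 (Metric.ball t ε) y := by
      intro y hy
      have h5 := hψ y x
      rw [hXH y _ (h3 hy)] at h5
      exact h5.hasDerivWithinAt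
    have h6 := hconv.norm_image_sub_le_of_norm_hasDerivWithin_le (f := fun s => ψ s x)
      (f' := fun _ => 0) (C := 0) h4 (by simp) (Metric.mem_ball_self hε) hs
    rw [zero_mul, norm_le_zero_iff, sub_eq_zero] at h6
    change ψ s x = x
    rw [← ht']
    rw [ht'] at h6 ⊢
    exact h6
  have huniv : {t : ℝ | ψ t x = x} = univ :=
    IsClopen.eq_univ ⟨hclosed, hopen⟩ ⟨0, h0 x⟩
  have : (1 : ℝ) ∈ {t : ℝ | ψ t x = x} := by rw [huniv]; exact mem_univ _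
  exact this

theorem ham_mem {u : E n ≃ₜ E n} (hu : IsHam u) : u ∈ hamBar n := by
  obtain ⟨K, hK, hK1, hK2⟩ := ham_support hu
  refine ⟨K, hK, hK1, hK2, fun _ => u, fun _ => hK2, fun _ => hu, ?_⟩
  rw [Metric.tendstoUniformly_iff]
  intro ε hε
  exact Eventually.of_forall fun _ x => by rw [dist_self]; exact hε

theorem uconv_of (hU : S_UC) {u : ℕ → (E n ≃ₜ E n)} {φ : E n ≃ₜ E n} {K : Set (E n)}
    (hK : IsCompact K) (h1 : ∀ x, x ∉ K → φ x = x)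
    (h2 : TendstoUniformly (fun (k : ℕ) (x : E n) => u k x) (fun x => φ x) Filter.atTop) :
    UConv u φ := ⟨h2, (hU n).2.2.2.2 φ K hK h1⟩

theorem hamBar_mul (hM : S_MUL) (hU : S_UC) {φ ψ : E n ≃ₜ E n} (hφ : φ ∈ hamBar n)
    (hψ : ψ ∈ hamBar n) : φ * ψ ∈ hamBar n := by
  obtain ⟨K, hK, hK1, hK2, u, hu1, hu2, hu3⟩ := hφ
  obtain ⟨L, hL, hL1, hL2, v, hv1, hv2, hv3⟩ := hψ
  refine ⟨K ∪ L, hK.union hL, union_subset hK1 hL1, fun x hx => ?_, fun k => u k * v k,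
    fun k x hx => ?_, fun k => hM n _ _ (hu2 k) (hv2 k), ?_⟩
  · rw [mem_union, not_or] at hx
    rw [mul_apply, hL2 x hx.2, hK2 x hx.1]
  · rw [mem_union, not_or] at hx
    rw [mul_apply, hv1 k x hx.2, hu1 k x hx.1]
  · exact ((hU n).1 _ _ _ _ (uconv_of hU hK hK2 hu3) (uconv_of hU hL hL2 hv3)).1

theorem hamBar_inv (hI : S_INV) (hU : S_UC) {φ : E n ≃ₜ E n} (hφ : φ ∈ hamBar n) :
    φ⁻¹ ∈ hamBar n := by
  obtain ⟨K, hK, hK1, hK2, u, hu1, hu2, hu3⟩ := hφ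
  refine ⟨K, hK, hK1, fun x hx => ?_, fun k => (u k)⁻¹, fun k x hx => ?_,
    fun k => (hI n).2 _ (hu2 k), ?_⟩
  · have h1 := inv_apply_self φ x
    rwa [hK2 x hx] at h1
  · have h1 := inv_apply_self (u k) x
    rwa [hu1 k x hx] at h1
  · exact ((hU n).2.1 _ _ (uconv_of hU hK hK2 hu3)).1

theorem mem_iff (hM : S_MUL) (hI : S_INV) (hU : S_UC) {φ : E n ≃ₜ E n} :
    φ ∈ HamBar n ↔ φ ∈ hamBar n := by
  constructor
  · intro h
    refine Subgroup.closure_induction (p := fun φ _ => φ ∈ hamBar n) (fun _ h => h)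
      (ham_mem (hI n).1) (fun _ _ _ _ h h' => hamBar_mul hM hU h h')
      (fun _ _ h => hamBar_inv hI hU h) h
  · intro h
    exact Subgroup.subset_closure h

theorem dil_mem (hD : S_DIL) (hU : S_UC) {s : ℝ} (hs : 0 < s) (hs1 : s ≤ 1) {φ : E n ≃ₜ E n}
    (hφ : φ ∈ hamBar n) : dil s hs * φ * (dil s hs)⁻¹ ∈ hamBar n := by
  obtain ⟨K, hK, hK1, hK2, u, hu1, hu2, hu3⟩ := hφ
  have hfix : ∀ w : E n ≃ₜ E n, (∀ x, x ∉ K → w x = x) → ∀ x, x ∉ (fun x : E n => s • x) '' K →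
      (dil s hs * w * (dil s hs)⁻¹ : E n ≃ₜ E n) x = x := by
    intro w hw x hx
    rw [mul_apply, mul_apply, dil_inv_apply, dil_apply, hw, smul_smul, mul_inv_cancel₀ hs.ne',
      one_smul]
    intro hc
    refine hx ⟨s⁻¹ • x, hc, ?_⟩
    simp only [smul_smul, mul_inv_cancel₀ hs.ne', one_smul]
  refine ⟨(fun x : E n => s • x) '' K, hK.image (continuous_const_smul s), ?_, hfix φ hK2,
    fun k => dil s hs * u k * (dil s hs)⁻¹, fun k => hfix _ (hu1 k),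
    fun k => hD n s hs hs1 _ (hu2 k), ?_⟩
  · rintro _ ⟨x, hx, rfl⟩
    have h1 : Q x < 1 := hK1 hx
    change Q (s • x) < 1
    rw [Q_smul]
    exact (mul_le_of_le_one_left (Q_nonneg x) (pow_le_one₀ hs.le hs1)).trans_lt h1
  · have h1 := (hU n).2.2.2.1 s hs
    exact ((hU n).1 _ _ _ _ ((hU n).1 _ _ _ _ h1 (uconv_of hU hK hK2 hu3))
      ((hU n).2.1 _ _ h1)).1

/-- the main construction -/
theorem core (hM : S_MUL) (hI : S_INV) (hD : S_DIL) (hU : S_UC) (hR : S_ROT) (hP : S_PROD)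
    (hn : 0 < n) {s : ℝ} (hs : 0 < s) {r : ℝ} (hr : 0 < r) (hrs : r < (1 - s) / 2)
    {φ : E n ≃ₜ E n} (hφ : φ ∈ hamBar n) :
    ∃ P : (ℕ → ℤ) → (E n ≃ₜ E n), (∀ b, P b ∈ hamBar n) ∧
      (∀ b b', P (b + b') = P b * P b') ∧
      (∀ b b', b' 0 = 0 → (∀ k, b' (k + 1) = b k) → P b' = dil s hs * P b * (dil s hs)⁻¹) ∧
      ∃ R ∈ hamBar n, ∀ b, b 0 = 1 → (∀ k, b (k + 1) = 0) →
        P b = R * (dil r hr * φ * (dil r hr)⁻¹) * R⁻¹ := by
  obtain ⟨K, hK, hK1, hK2, u, hu1, hu2, hu3⟩ := hφ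
  have hs1 : s < 1 := by linarith
  -- `d` close to `1 - r`
  obtain ⟨d, hd1, hd2⟩ : ∃ d, r * (1 + s) / (1 - s) < d ∧ d < 1 - r := by
    apply exists_between
    rw [div_lt_iff₀ (by linarith)]
    nlinarith
  have h1s : 0 < 1 - s := by linarith
  have hd3 : r * (1 + s) < d * (1 - s) := by rwa [div_lt_iff₀ h1s] at hd1
  have hd0 : 0 < d := by
    by_contra hc
    push Not at hc
    have : 0 < r * (1 + s) := by positivity
    nlinarith
  obtain ⟨R, a, hRh, ha, hRa⟩ := hR n hn r d hr hd0 (by linarith)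
  set ρ : ℝ := d + r with hρ
  have hρ0 : 0 < ρ := by positivity
  have hρ1 : ρ < 1 := by linarith
  have hsqa : √(Q a) = d := by rw [ha, Real.sqrt_sq hd0.le]
  -- the seed
  have hfix : ∀ w : E n ≃ₜ E n, (∀ x, x ∉ K → w x = x) →
      ∀ x, ¬ ((s * ρ) ^ 2 < Q x ∧ Q x ≤ ρ ^ 2) →
      (R * (dil r hr * w * (dil r hr)⁻¹) * R⁻¹ : E n ≃ₜ E n) x = x := by
    intro w hw x hx
    have hy : r⁻¹ • (R⁻¹ x) ∉ K := by
      intro hc
      apply hx
      have h1 : Q (r⁻¹ • (R⁻¹ x)) < 1 := hK1 hc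
      rw [Q_smul, inv_pow, inv_mul_lt_iff₀ (by positivity), mul_one] at h1
      have h2 := hRa _ h1.le
      rw [apply_inv_self] at h2
      have h3 : √(Q (R⁻¹ x)) < r := by
        rw [Real.sqrt_lt' hr]
        exact h1
      have h4 : √(Q x) ≤ ρ := by
        have h5 := sqrtQ_add a (-(R⁻¹ x))
        have h6 : Q (-(R⁻¹ x)) = Q (R⁻¹ x) := by
          rw [show -(R⁻¹ x) = (-1 : ℝ) • (R⁻¹ x) by rw [neg_smul, one_smul], Q_smul]
          ring
        rw [← sub_eq_add_neg, ← h2, hsqa, h6] at h5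
        linarith
      have h7 : s * ρ < √(Q x) := by
        have h5 := sqrtQ_add x (R⁻¹ x)
        have h6 : x + R⁻¹ x = a := eq_sub_iff_add_eq.1 h2
        rw [h6, hsqa] at h5
        have : s * ρ < d - r := by
          rw [hρ]
          nlinarith
        linarith
      have h8 : Q x = √(Q x) ^ 2 := (Real.sq_sqrt (Q_nonneg x)).symm
      have h9 : 0 ≤ √(Q x) := Real.sqrt_nonneg _
      have h10 : 0 < s * ρ := by positivity
      constructor
      · rw [h8]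
        exact pow_lt_pow_left₀ h7 h10.le two_ne_zero
      · rw [h8]
        exact pow_le_pow_left₀ h9 h4 2
    rw [mul_apply, mul_apply, mul_apply, mul_apply, dil_inv_apply, dil_apply, hw _ hy, smul_smul,
      mul_inv_cancel₀ hr.ne', one_smul, apply_inv_self]
  set g : E n ≃ₜ E n := R * (dil r hr * φ * (dil r hr)⁻¹) * R⁻¹ with hg
  set v : ℕ → (E n ≃ₜ E n) := fun k => R * (dil r hr * u k * (dil r hr)⁻¹) * R⁻¹ with hv
  have hr1 : r ≤ 1 := by linarith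
  have hvh : ∀ k, IsHam (v k) := fun k =>
    hM n _ _ (hM n _ _ hRh (hD n r hr hr1 _ (hu2 k))) ((hI n).2 _ hRh)
  have hRm := ham_mem hRh
  have hvu : UConv v g := by
    obtain ⟨L, hL, hL1, hL2, -⟩ := hRm
    have h1 := (hU n).2.2.2.1 r hr
    have h2 : UConv (fun _ : ℕ => R) R := by
      refine uconv_of hU hL hL2 ?_
      rw [Metric.tendstoUniformly_iff]
      intro ε hε
      exact Eventually.of_forall fun _ x => by rw [dist_self]; exact hε
    have h3 := (hU n).1 _ _ _ _ ((hU n).1 _ _ _ _ h1 (uconv_of hU hK hK2 hu3))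
      ((hU n).2.1 _ _ h1)
    exact (hU n).1 _ _ _ _ ((hU n).1 _ _ _ _ h2 h3) ((hU n).2.1 _ _ h2)
  obtain ⟨P, hP1, hP2, hP3, hP4, hP5⟩ := hP n s hs hs1 ρ hρ0 g (hfix φ hK2)
  exact ⟨P, fun b => mem_hamBar hM hI hD hU hs hs1 hρ0 hρ1 hvu hvh (fun k => hfix _ (hu1 k))
    (P b) (hP4 b) b (hP5 b), hP1, hP3, R, hRm, hP2⟩

end Pool.Agent.Y453.HB
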