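import Pool.Agent.Y453.HB.Asm
import Pool.Agent.Y907.HB.Mul
import Pool.Agent.Y510.HB.Inv
import Pool.Agent.Y419.HB.Dil
import Pool.Agent.Y309.HB.UC
import Pool.Agent.Y496.HB.Prod
import Pool.Agent.Y945.HB.Rot

set_option autoImplicit false

open Set Filter Topology Function

namespace Pool.Agent.Y453.HB

variable {n : ℕ}

/-- `φ'` is the conjugate of `φ` by the dilation `x ↦ s x` -/
def IsDilate (s : ℝ) (φ φ' : HamBar n) : Prop :=
  ∀ x : E n, (φ' : E n ≃ₜ E n) (s • x) = s • (φ : E n ≃ₜ E n) x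

/-- homogeneous quasimorphisms -/
structure IsHomogeneousQuasimorphism {G : Type} [Group G] (c : G → ℝ) : Prop where
  bounded : ∃ D : ℝ, ∀ φ ψ : G, |c (φ * ψ) - c φ - c ψ| ≤ D
  pow : ∀ (φ : G) (m : ℕ), c (φ ^ m) = m * c φ

theorem eq_of_bounded {a D : ℝ} (h : ∀ m : ℕ, (m : ℝ) * |a| ≤ D) : a = 0 := by
  by_contra ha
  have h1 : 0 < |a| := abs_pos.2 ha
  obtain ⟨m, hm⟩ := exists_nat_gt (D / |a|)
  have h2 := h m
  rw [div_lt_iff₀ h1] at hm
  linarith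

theorem IsHomogeneousQuasimorphism.comm {G : Type} [Group G] {c : G → ℝ}
    (h : IsHomogeneousQuasimorphism c) {φ ψ : G} (hc : φ * ψ = ψ * φ) :
    c (φ * ψ) = c φ + c ψ := by
  obtain ⟨D, hD⟩ := h.bounded
  have h1 : c (φ * ψ) - c φ - c ψ = 0 := by
    refine eq_of_bounded (D := D) fun m => ?_
    have h2 := hD (φ ^ m) (ψ ^ m)
    rw [← (show Commute φ ψ from hc).mul_pow, h.pow, h.pow, h.pow] at h2
    calc (m : ℝ) * |c (φ * ψ) - c φ - c ψ| = |(m : ℝ) * (c (φ * ψ) - c φ - c ψ)| := by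
          rw [abs_mul, Nat.abs_cast]
      _ = |m * c (φ * ψ) - m * c φ - m * c ψ| := by congr 1; ring
      _ ≤ D := h2
  linarith

theorem IsHomogeneousQuasimorphism.conj {G : Type} [Group G] {c : G → ℝ}
    (h : IsHomogeneousQuasimorphism c) (φ ψ : G) : c (ψ * φ * ψ⁻¹) = c φ := by
  obtain ⟨D, hD⟩ := h.bounded
  have h1 : c (ψ * φ * ψ⁻¹) - c φ = 0 := by
    refine eq_of_bounded (D := 2 * D + |c ψ + c ψ⁻¹|) fun m => ?_
    have h2 := hD (ψ * φ ^ m) ψ⁻¹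
    have h3 := hD ψ (φ ^ m)
    have h4 : (ψ * φ * ψ⁻¹) ^ m = ψ * φ ^ m * ψ⁻¹ := conj_pow
    have h5 := h.pow (ψ * φ * ψ⁻¹) m
    rw [h4] at h5
    rw [h.pow] at h3
    calc (m : ℝ) * |c (ψ * φ * ψ⁻¹) - c φ| = |(m : ℝ) * (c (ψ * φ * ψ⁻¹) - c φ)| := by
          rw [abs_mul, Nat.abs_cast]
      _ = |(c (ψ * φ ^ m * ψ⁻¹) - c (ψ * φ ^ m) - c ψ⁻¹) + (c (ψ * φ ^ m) - c ψ - m * c φ) +
            (c ψ + c ψ⁻¹)| := by rw [h5]; congr 1; ring
      _ ≤ |c (ψ * φ ^ m * ψ⁻¹) - c (ψ * φ ^ m) - c ψ⁻¹| + |c (ψ * φ ^ m) - c ψ - m * c φ| +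
            |c ψ + c ψ⁻¹| := abs_add_three _ _ _
      _ ≤ 2 * D + |c ψ + c ψ⁻¹| := by linarith
  linarith

/-- values of equivariant class functions on small elements -/
theorem equivariant (hn : 0 < n) (A : Type) [AddCommGroup A] (D : AddMonoid.End A)
    (c : HamBar n → A) (hconj : ∀ φ ψ, c (ψ * φ * ψ⁻¹) = c φ)
    (hcomm : ∀ φ ψ, φ * ψ = ψ * φ → c (φ * ψ) = c φ + c ψ) (s : ℝ) (hs : 0 < s)
    (hc : ∀ φ φ', IsDilate s φ φ' → c φ' = D (c φ)) (f : Polynomial ℤ) (hf : f.coeff 0 = 1)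
    (r : ℝ) (hr : 0 < r) (hrs : r < (1 - s) / 2) (φ φ' : HamBar n) (hφ : IsDilate r φ φ') :
    ∃ Φ : HamBar n, c φ' = Polynomial.aeval D f (c Φ) := by
  have hM := Pool.Agent.Y907.HB.mul
  have hI := Pool.Agent.Y510.HB.inv
  have hD := Pool.Agent.Y419.HB.dil_ham
  have hU := Pool.Agent.Y309.HB.uc
  obtain ⟨P, hP1, hP2, hP3, R, hR, hP4⟩ := core hM hI hD hU (Pool.Agent.Y945.HB.rot tri)
    (Pool.Agent.Y496.HB.prod tri) hn hs hr hrs ((mem_iff hM hI hU).1 φ.2)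
  have hmem : ∀ b, P b ∈ HamBar n := fun b => (mem_iff hM hI hU).2 (hP1 b)
  let q : (ℕ → ℤ) → HamBar n := fun b => ⟨P b, hmem b⟩
  have hq : ∀ b b', q (b + b') = q b * q b' := fun b b' => Subtype.ext (hP2 b b')
  have hqc : ∀ b b', c (q (b + b')) = c (q b) + c (q b') := fun b b' => by
    rw [hq, hcomm]
    rw [← hq, ← hq, add_comm]
  let co : PowerSeries ℤ → ℕ → ℤ := fun p k => PowerSeries.coeff k p
  have hco : ∀ p p', co (p + p') = co p + co p' := fun p p' => by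
    funext k
    simp [co]
  let C : PowerSeries ℤ →+ A := AddMonoidHom.mk' (fun p => c (q (co p))) (fun p p' => by
    simp only [hco, hqc])
  have hC : ∀ b, C (PowerSeries.X * b) = D (C b) := by
    intro b
    change c (q (co (PowerSeries.X * b))) = D (c (q (co b)))
    refine hc _ _ fun x => ?_
    change P (co (PowerSeries.X * b)) (s • x) = s • P (co b) x
    rw [hP3 (co b) (co (PowerSeries.X * b)) (by simp [co]) (fun k => by
      simp only [co]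
      exact PowerSeries.coeff_succ_X_mul k b)]
    rw [mul_apply, mul_apply, dil_inv_apply, dil_apply, smul_smul, inv_mul_cancel₀ hs.ne',
      one_smul]
  obtain ⟨b, hb⟩ := alg A D C hC f hf
  refine ⟨q (co b), ?_⟩
  have h1 : c φ' = C 1 := by
    have h2 : q (co 1) = (⟨R, (mem_iff hM hI hU).2 hR⟩ : HamBar n) * φ' *
        (⟨R, (mem_iff hM hI hU).2 hR⟩ : HamBar n)⁻¹ := by
      apply Subtype.ext
      change P (co 1) = R * (φ' : E n ≃ₜ E n) * R⁻¹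
      rw [hP4 (co 1) (by simp [co]) (fun k => by simp [co, PowerSeries.coeff_one])]
      have h3 : (dil r hr * (φ : E n ≃ₜ E n) * (dil r hr)⁻¹ : E n ≃ₜ E n) =
          (φ' : E n ≃ₜ E n) := by
        refine Homeomorph.ext fun x => ?_
        rw [mul_apply, mul_apply, dil_inv_apply, dil_apply]
        have := hφ (r⁻¹ • x)
        rw [smul_smul, mul_inv_cancel₀ hr.ne', one_smul] at this
        exact this.symm
      rw [h3]
    change c φ' = c (q (co 1))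
    rw [h2, hconj]
  rw [h1, hb]
  rfl

theorem exists_dilate {s : ℝ} (hs : 0 < s) (hs1 : s ≤ 1) (φ : HamBar n) :
    ∃ φ' : HamBar n, IsDilate s φ φ' := by
  have hM := Pool.Agent.Y907.HB.mul
  have hI := Pool.Agent.Y510.HB.inv
  have hD := Pool.Agent.Y419.HB.dil_ham
  have hU := Pool.Agent.Y309.HB.uc
  refine ⟨⟨dil s hs * (φ : E n ≃ₜ E n) * (dil s hs)⁻¹, (mem_iff hM hI hU).2
    (dil_mem hD hU hs hs1 ((mem_iff hM hI hU).1 φ.2))⟩, fun x => ?_⟩
  change (dil s hs * (φ : E n ≃ₜ E n) * (dil s hs)⁻¹ : E n ≃ₜ E n) (s • x) = _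
  rw [mul_apply, mul_apply, dil_inv_apply, dil_apply, smul_smul, inv_mul_cancel₀ hs.ne', one_smul]

/-- a ratio `s` such that `s ^ κ` is a root of `(1 - X) (1 - 3 X + X²)` -/
theorem exists_ratio (κ : ℝ) : ∃ s : ℝ, 0 < s ∧ s < 1 ∧
    (1 - s ^ κ) * (1 - 3 * s ^ κ + (s ^ κ) ^ 2) = 0 := by
  have h5 : √5 ^ 2 = 5 := Real.sq_sqrt (by norm_num)
  have h5a : 2 < √5 := by
    rw [Real.lt_sqrt (by norm_num)]
    norm_num
  have h5b : √5 < 3 := by
    rw [Real.sqrt_lt' (by norm_num)]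
    norm_num
  rcases lt_trichotomy κ 0 with hκ | hκ | hκ
  · refine ⟨((3 + √5) / 2) ^ (1 / κ), by positivity, ?_, ?_⟩
    · exact Real.rpow_lt_one_of_one_lt_of_neg (by linarith) (one_div_neg.2 hκ)
    · rw [← Real.rpow_mul (by positivity), one_div_mul_cancel hκ.ne, Real.rpow_one]
      have : 1 - 3 * ((3 + √5) / 2) + ((3 + √5) / 2) ^ 2 = 0 := by nlinarith
      rw [this, mul_zero]
  · refine ⟨1 / 2, by norm_num, by norm_num, ?_⟩
    rw [hκ, Real.rpow_zero]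
    norm_num
  · have h0 : 0 < (3 - √5) / 2 := by linarith
    refine ⟨((3 - √5) / 2) ^ (1 / κ), by positivity, ?_, ?_⟩
    · exact Real.rpow_lt_one h0.le (by linarith) (one_div_pos.2 hκ)
    · rw [← Real.rpow_mul h0.le, one_div_mul_cancel hκ.ne', Real.rpow_one]
      have : 1 - 3 * ((3 - √5) / 2) + ((3 - √5) / 2) ^ 2 = 0 := by nlinarith
      rw [this, mul_zero]

theorem homogeneous (hn : 0 < n) (κ : ℝ) (c : HamBar n → ℝ)
    (hconj : ∀ φ ψ, c (ψ * φ * ψ⁻¹) = c φ)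
    (hcomm : ∀ φ ψ, φ * ψ = ψ * φ → c (φ * ψ) = c φ + c ψ)
    (hc : ∀ s : ℝ, 0 < s → s < 1 → ∀ φ φ', IsDilate s φ φ' → c φ' = s ^ κ * c φ)
    (φ : HamBar n) : c φ = 0 := by
  obtain ⟨s, hs, hs1, hroot⟩ := exists_ratio κ
  have hr : 0 < (1 - s) / 4 := by linarith
  have hr1 : (1 - s) / 4 < (1 - s) / 2 := by linarith
  obtain ⟨φ', hφ'⟩ := exists_dilate hr (by linarith) φ
  let f : Polynomial ℤ := (1 - Polynomial.X) * (1 - 3 * Polynomial.X + Polynomial.X ^ 2)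
  have hf : f.coeff 0 = 1 := by
    simp [f, Polynomial.mul_coeff_zero]
  obtain ⟨Φ, hΦ⟩ := equivariant hn ℝ (Module.toAddMonoidEnd ℝ ℝ (s ^ κ)) c hconj hcomm s hs
    (fun φ φ' h => hc s hs hs1 φ φ' h) f hf _ hr hr1 φ φ' hφ'
  have h1 : Polynomial.aeval (Module.toAddMonoidEnd ℝ ℝ (s ^ κ)) f =
      Module.toAddMonoidEnd ℝ ℝ (Polynomial.aeval (s ^ κ) f) := by
    have := Polynomial.aeval_algHom_apply (Module.toAddMonoidEnd ℝ ℝ).toIntAlgHom (s ^ κ) f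
    exact this
  have h2 : Polynomial.aeval (s ^ κ) f = 0 := by
    simp only [f, map_mul, map_sub, map_add, map_one, Polynomial.aeval_X, map_pow, map_ofNat]
    exact hroot
  rw [h1, h2, map_zero] at hΦ
  have h3 := hc _ hr (by linarith) φ φ' hφ'
  rw [hΦ] at h3
  have h4 : 0 < ((1 - s) / 4) ^ κ := Real.rpow_pos_of_pos hr κ
  have h5 : (0 : ℝ) = ((1 - s) / 4) ^ κ * c φ := h3
  rcases mul_eq_zero.1 h5.symm with h | h
  · exact absurd h h4.ne'
  · exact h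

end Pool.Agent.Y453.HB
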