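import Mathlib

/-!
# Project HB: homomorphisms of the group of Hamiltonian homeomorphisms of the ball

Definitions (the same as in the frozen statement S13311) and exact statements of the parts.
-/

set_option autoImplicit false

open Set Filter Topology Function

namespace Pool.Agent.Y453.HB

/-- `ℝ^{2n}`, coordinates `(x, y)` -/
abbrev E (n : ℕ) : Type := (Fin n → ℝ) × (Fin n → ℝ)

/-- square of the Euclidean norm -/
def Q {n : ℕ} (p : E n) : ℝ := ∑ i, ((p.1 i) ^ 2 + (p.2 i) ^ 2)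

/-- the Hamiltonian vector field of `h` -/
noncomputable def XH {n : ℕ} (h : E n → ℝ) (p : E n) : E n :=
  ((fun i : Fin n => fderiv ℝ h p ((0 : Fin n → ℝ), (Pi.single i (1 : ℝ) : Fin n → ℝ))),
   (fun i : Fin n => -fderiv ℝ h p ((Pi.single i (1 : ℝ) : Fin n → ℝ), (0 : Fin n → ℝ))))

/-- `u` is the time one map of the flow of a smooth Hamiltonian with compact support in the open
unit ball -/
def IsHam {n : ℕ} (u : E n ≃ₜ E n) : Prop :=
  ∃ H : ℝ → E n → ℝ, ContDiff ℝ ((⊤ : ℕ∞) : WithTop ℕ∞) (Function.uncurry H) ∧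
    (∃ K : Set (E n), IsCompact K ∧ K ⊆ {p : E n | Q p < 1} ∧ ∀ t : ℝ, ∀ x, x ∉ K → H t x = 0) ∧
    ∃ ψ : ℝ → E n → E n, (∀ x, ψ 0 x = x) ∧
      (∀ (t : ℝ) (x : E n), HasDerivAt (fun s : ℝ => ψ s x) (XH (H t) (ψ t x)) t) ∧
      ∀ x, u x = ψ 1 x

/-- the homeomorphisms supported in a compact subset of the open unit ball that are uniform limits
of elements of `IsHam` supported in the same compact set -/
def hamBar (n : ℕ) : Set (E n ≃ₜ E n) :=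
  {φ | ∃ K : Set (E n), IsCompact K ∧ K ⊆ {p : E n | Q p < 1} ∧ (∀ x, x ∉ K → φ x = x) ∧
    ∃ u : ℕ → (E n ≃ₜ E n), (∀ k, ∀ x, x ∉ K → u k x = x) ∧ (∀ k, IsHam (u k)) ∧
      TendstoUniformly (fun (k : ℕ) (x : E n) => u k x) (fun x => φ x) Filter.atTop}

/-- the group of compactly supported Hamiltonian homeomorphisms of the open unit ball -/
def HamBar (n : ℕ) : Subgroup (E n ≃ₜ E n) := Subgroup.closure (hamBar n)

/-- the dilation `x ↦ s x` -/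
noncomputable def dil {n : ℕ} (s : ℝ) (hs : 0 < s) : E n ≃ₜ E n :=
  Homeomorph.smulOfNeZero s hs.ne'

@[simp] theorem dil_apply {n : ℕ} (s : ℝ) (hs : 0 < s) (x : E n) : dil s hs x = s • x := rfl

@[simp] theorem dil_inv_apply {n : ℕ} (s : ℝ) (hs : 0 < s) (x : E n) :
    (dil s hs)⁻¹ x = s⁻¹ • x := rfl

theorem mul_apply {n : ℕ} (f g : E n ≃ₜ E n) (x : E n) : (f * g) x = f (g x) := rfl

theorem inv_apply_self {n : ℕ} (f : E n ≃ₜ E n) (x : E n) : f⁻¹ (f x) = x := f.symm_apply_apply x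

theorem apply_inv_self {n : ℕ} (f : E n ≃ₜ E n) (x : E n) : f (f⁻¹ x) = x := f.apply_symm_apply x

/-! ## The parts -/

/-- products of Hamiltonian diffeomorphisms -/
def S_MUL : Prop := ∀ (n : ℕ) (u v : E n ≃ₜ E n), IsHam u → IsHam v → IsHam (u * v)

/-- inverses of Hamiltonian diffeomorphisms, and the identity -/
def S_INV : Prop := ∀ (n : ℕ), IsHam (1 : E n ≃ₜ E n) ∧ ∀ (u : E n ≃ₜ E n), IsHam u → IsHam u⁻¹

/-- conjugation by a dilation -/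
def S_DIL : Prop := ∀ (n : ℕ) (s : ℝ) (hs : 0 < s), s ≤ 1 → ∀ (u : E n ≃ₜ E n), IsHam u →
  IsHam (dil s hs * u * (dil s hs)⁻¹)

/-- a rotation by the angle `π` about the point `a / 2`, cut off -/
def S_ROT : Prop := ∀ (n : ℕ), 0 < n → ∀ r d : ℝ, 0 < r → 0 < d → d + r < 1 →
  ∃ (R : E n ≃ₜ E n) (a : E n), IsHam R ∧ Q a = d ^ 2 ∧ ∀ x, Q x ≤ r ^ 2 → R x = a - x

/-- the Euclidean norm -/
def S_TRI : Prop := ∀ (n : ℕ),
  (∀ x y : E n, √(Q (x + y)) ≤ √(Q x) + √(Q y)) ∧ (∀ x : E n, ‖x‖ ≤ √(Q x)) ∧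
  (∀ (c : ℝ) (x : E n), Q (c • x) = c ^ 2 * Q x) ∧ Continuous (Q : E n → ℝ) ∧
  (∀ c : ℝ, IsCompact {x : E n | Q x ≤ c}) ∧ (∀ x : E n, 0 ≤ Q x) ∧ (∀ x : E n, Q x = 0 → x = 0)

/-- uniform convergence of homeomorphisms `u k → g`, with `g` and its inverse uniformly
continuous -/
def UConv {n : ℕ} (u : ℕ → (E n ≃ₜ E n)) (g : E n ≃ₜ E n) : Prop :=
  TendstoUniformly (fun (k : ℕ) (x : E n) => u k x) (fun x => g x) atTop ∧
    UniformContinuous g ∧ UniformContinuous (g⁻¹ : E n ≃ₜ E n)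

/-- operations with uniformly convergent sequences -/
def S_UC : Prop := ∀ (n : ℕ),
  (∀ (u v : ℕ → (E n ≃ₜ E n)) (g h : E n ≃ₜ E n), UConv u g → UConv v h →
    UConv (fun k => u k * v k) (g * h)) ∧
  (∀ (u : ℕ → (E n ≃ₜ E n)) (g : E n ≃ₜ E n), UConv u g → UConv (fun k => (u k)⁻¹) g⁻¹) ∧
  (∀ (u : ℕ → (E n ≃ₜ E n)) (g : E n ≃ₜ E n), UConv u g → ∀ m : ℤ,
    UConv (fun k => u k ^ m) (g ^ m)) ∧
  (∀ (s : ℝ) (hs : 0 < s), UConv (fun _ => (dil s hs : E n ≃ₜ E n)) (dil s hs)) ∧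
  (∀ (g : E n ≃ₜ E n) (K : Set (E n)), IsCompact K → (∀ x, x ∉ K → g x = x) →
    UniformContinuous g ∧ UniformContinuous (g⁻¹ : E n ≃ₜ E n))

/-- the `k`-th copy of `g` -/
noncomputable def cp {n : ℕ} (s : ℝ) (hs : 0 < s) (g : E n ≃ₜ E n) (k : ℕ) : E n ≃ₜ E n :=
  (dil s hs) ^ k * g * ((dil s hs) ^ k)⁻¹

/-- the product of the first `m` copies of `g` with exponents `b 0, …, b (m - 1)` -/
noncomputable def F {n : ℕ} (s : ℝ) (hs : 0 < s) (g : E n ≃ₜ E n) (b : ℕ → ℤ) :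
    ℕ → (E n ≃ₜ E n)
  | 0 => 1
  | m + 1 => F s hs g b m * cp s hs g m ^ b m

/-- the infinite product: for `g` with support in a shell, there is a homomorphism `P` from the
sequences of integers to the homeomorphisms such that `P b` is the infinite product of the copies of
`g` with exponents `b k` -/
def S_PROD : Prop := ∀ (n : ℕ) (s : ℝ) (hs : 0 < s), s < 1 → ∀ (ρ : ℝ), 0 < ρ →
  ∀ (g : E n ≃ₜ E n), (∀ x, ¬ ((s * ρ) ^ 2 < Q x ∧ Q x ≤ ρ ^ 2) → g x = x) →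
  ∃ P : (ℕ → ℤ) → (E n ≃ₜ E n),
    (∀ b b', P (b + b') = P b * P b') ∧
    (∀ b, b 0 = 1 → (∀ k, b (k + 1) = 0) → P b = g) ∧
    (∀ b b', b' 0 = 0 → (∀ k, b' (k + 1) = b k) → P b' = dil s hs * P b * (dil s hs)⁻¹) ∧
    (∀ b x, ρ ^ 2 < Q x → P b x = x) ∧
    (∀ b (m : ℕ) (x : E n), dist (P b x) (F s hs g b m x) ≤ 2 * (s ^ m * ρ))

/-- the algebraic part -/
def S_ALG : Prop := ∀ (A : Type) [AddCommGroup A] (D : AddMonoid.End A)
  (C : PowerSeries ℤ →+ A), (∀ b, C (PowerSeries.X * b) = D (C b)) →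
  ∀ f : Polynomial ℤ, f.coeff 0 = 1 →
    ∃ b : PowerSeries ℤ, C 1 = (Polynomial.aeval D f) (C b)

end Pool.Agent.Y453.HB
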