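import Pool.Agent.Y453.HB.Stm

set_option autoImplicit false

open Set Filter Topology Function

namespace Pool.Agent.Y453.HB

/-- to Euclidean space -/
noncomputable def toE {n : ℕ} (x : E n) : EuclideanSpace ℝ (Fin n ⊕ Fin n) :=
  WithLp.toLp 2 (Sum.elim x.1 x.2)

theorem toE_add {n : ℕ} (x y : E n) : toE (x + y) = toE x + toE y := by
  ext i
  rcases i with i | i <;> simp [toE]

theorem norm_toE {n : ℕ} (x : E n) : ‖toE x‖ = √(Q x) := by
  rw [EuclideanSpace.norm_eq]
  congr 1
  simp [toE, Q, Finset.sum_add_distrib]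

theorem Q_nonneg {n : ℕ} (x : E n) : 0 ≤ Q x :=
  Finset.sum_nonneg fun i _ => by positivity

theorem Q_smul {n : ℕ} (c : ℝ) (x : E n) : Q (c • x) = c ^ 2 * Q x := by
  unfold Q
  rw [Finset.mul_sum]
  refine Finset.sum_congr rfl fun i _ => ?_
  simp only [Prod.smul_fst, Prod.smul_snd, Pi.smul_apply, smul_eq_mul]
  ring

theorem Q_cont {n : ℕ} : Continuous (Q : E n → ℝ) := by
  unfold Q
  fun_prop

theorem norm_le {n : ℕ} (x : E n) : ‖x‖ ≤ √(Q x) := by
  have h1 : ∀ i, |x.1 i| ≤ √(Q x) := fun i => by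
    apply Real.abs_le_sqrt
    have := Finset.single_le_sum (f := fun i => (x.1 i) ^ 2 + (x.2 i) ^ 2)
      (fun j _ => by positivity) (Finset.mem_univ i)
    have h2 := sq_nonneg (x.2 i)
    unfold Q
    linarith
  have h2 : ∀ i, |x.2 i| ≤ √(Q x) := fun i => by
    apply Real.abs_le_sqrt
    have := Finset.single_le_sum (f := fun i => (x.1 i) ^ 2 + (x.2 i) ^ 2)
      (fun j _ => by positivity) (Finset.mem_univ i)
    have h2 := sq_nonneg (x.1 i)
    unfold Q
    linarith
  rw [Prod.norm_def]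
  refine max_le ?_ ?_
  · exact (pi_norm_le_iff_of_nonneg (Real.sqrt_nonneg _)).2 h1
  · exact (pi_norm_le_iff_of_nonneg (Real.sqrt_nonneg _)).2 h2

theorem Q_eq_zero {n : ℕ} (x : E n) (h : Q x = 0) : x = 0 := by
  have := norm_le x
  rw [h, Real.sqrt_zero] at this
  exact norm_le_zero_iff.1 this

theorem Q_compact {n : ℕ} (c : ℝ) : IsCompact {x : E n | Q x ≤ c} := by
  refine Metric.isCompact_of_isClosed_isBounded (isClosed_le Q_cont continuous_const) ?_
  refine (Metric.isBounded_closedBall (x := (0 : E n)) (r := √c)).subset fun x hx => ?_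
  rw [mem_closedBall_zero_iff]
  exact (norm_le x).trans (Real.sqrt_le_sqrt hx)

theorem sqrtQ_add {n : ℕ} (x y : E n) : √(Q (x + y)) ≤ √(Q x) + √(Q y) := by
  rw [← norm_toE, ← norm_toE, ← norm_toE, toE_add]
  exact norm_add_le _ _

theorem tri : S_TRI := fun _ =>
  ⟨sqrtQ_add, norm_le, Q_smul, Q_cont, Q_compact, Q_nonneg, Q_eq_zero⟩

/-! ## the algebraic part -/

theorem alg_aux (A : Type) [AddCommGroup A] (D : AddMonoid.End A)
    (C : PowerSeries ℤ →+ A) (hC : ∀ b, C (PowerSeries.X * b) = D (C b)) (f : Polynomial ℤ) :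
    ∀ b : PowerSeries ℤ, C ((f : PowerSeries ℤ) * b) = (Polynomial.aeval D f) (C b) := by
  have hpow : ∀ (k : ℕ) (b : PowerSeries ℤ), C (PowerSeries.X ^ k * b) = (D ^ k) (C b) := by
    intro k
    induction k with
    | zero => intro b; simp
    | succ k ih =>
      intro b
      rw [pow_succ', mul_assoc, hC, ih, pow_succ']
      rfl
  induction f using Polynomial.induction_on' with
  | add p q hp hq =>
    intro b
    rw [Polynomial.coe_add, add_mul, map_add, hp, hq, map_add]
    rfl
  | monomial k a =>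
    intro b
    have h1 : ((Polynomial.monomial k a : Polynomial ℤ) : PowerSeries ℤ) * b =
        a • (PowerSeries.X ^ k * b) := by
      rw [← Polynomial.C_mul_X_pow_eq_monomial, Polynomial.coe_mul, Polynomial.coe_C,
        Polynomial.coe_pow, Polynomial.coe_X, zsmul_eq_mul, mul_assoc]
      congr 1
      exact eq_intCast (PowerSeries.C (R := ℤ)) a
    rw [h1, map_zsmul, hpow, Polynomial.aeval_monomial]
    have h2 : (algebraMap ℤ (AddMonoid.End A)) a = a • (1 : AddMonoid.End A) := by
      rw [Algebra.algebraMap_eq_smul_one]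
    rw [h2, smul_mul_assoc, one_mul]
    rfl

theorem alg : S_ALG := by
  intro A _ D C hC f hf
  refine ⟨PowerSeries.invOfUnit (f : PowerSeries ℤ) 1, ?_⟩
  rw [← alg_aux A D C hC f, PowerSeries.mul_invOfUnit]
  simp [hf]

end Pool.Agent.Y453.HB
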